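import Mathlib

/-!
A submonoid of the monoid of amenable functions that contains all bijections of `[0, ∞)` fixing `0`
is the monoid of preservers of a class of metric spaces only if it is the monoid of all amenable
functions. In particular the monoid of these bijections is not the monoid of preservers of a class.
-/

set_option autoImplicit false

open Set Function
open scoped NNReal

universe u

namespace Pool.Agent.Results.MP_6117a1_gt.NotRealisable

/-- `ρ` is a metric on `Y`. -/
structure IsMetric {Y : Type u} (ρ : Y → Y → ℝ≥0) : Prop where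
  /-- the distance is zero exactly for equal points -/
  eq_zero_iff : ∀ x y, ρ x y = 0 ↔ x = y
  /-- symmetry -/
  symm : ∀ x y, ρ x y = ρ y x
  /-- the triangle inequality -/
  triangle : ∀ x y z, ρ x z ≤ ρ x y + ρ y z

/-- A class of nonempty metric spaces. -/
structure MetricClass where
  /-- the pairs `(Y, ρ)` that belong to the class -/
  Mem : ∀ Y : Type u, (Y → Y → ℝ≥0) → Prop
  /-- all of them are nonempty metric spaces -/
  isMetric : ∀ (Y : Type u) (ρ : Y → Y → ℝ≥0), Mem Y ρ → Nonempty Y ∧ IsMetric ρ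

/-- The functions that preserve the class `X`. -/
def P (X : MetricClass.{u}) : Set (ℝ≥0 → ℝ≥0) :=
  {f | ∀ (Y : Type u) (ρ : Y → Y → ℝ≥0), X.Mem Y ρ → X.Mem Y fun x y => f (ρ x y)}

/-- The amenable functions. -/
def Am : Set (ℝ≥0 → ℝ≥0) := {f | ∀ t, f t = 0 ↔ t = 0}

/-- `A` is a submonoid of the monoid of all functions under composition. -/
def IsSubmonoid (A : Set (ℝ≥0 → ℝ≥0)) : Prop := id ∈ A ∧ ∀ f ∈ A, ∀ g ∈ A, f ∘ g ∈ A

/-- The bijections of `[0, ∞)` that fix `0`. -/
def Bij : Set (ℝ≥0 → ℝ≥0) := {f | Bijective f ∧ f 0 = 0}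

theorem isSubmonoid_Bij : IsSubmonoid Bij :=
  ⟨⟨bijective_id, rfl⟩, fun f hf g hg => ⟨hf.1.comp hg.1, by
    rw [comp_apply, hg.2, hf.2]⟩⟩

theorem Bij_subset_Am : Bij ⊆ Am := fun f hf t =>
  ⟨fun h => hf.1.1 (h.trans hf.2.symm), fun h => by rw [h, hf.2]⟩

theorem Bij_ne_Am : Bij ≠ Am := by
  intro h
  have h1 : (fun t : ℝ≥0 => if t = 0 then 0 else 1) ∈ Bij := by
    rw [h]
    intro t
    by_cases ht : t = 0 <;> simp [ht]
  have h2 := h1.1.1 (a₁ := 1) (a₂ := 2) (by simp)
  norm_num at h2

/-- A bijection fixing `0` that makes `a` large and `b`, `c` small. -/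
theorem exists_bij {a b c : ℝ≥0} (ha : a ≠ 0) (hb : b ≠ a) (hc : c ≠ a) :
    ∃ f ∈ Bij, f a = 10 ∧ f b ≤ 1 ∧ f c ≤ 1 := by
  set ε : ℝ≥0 := (b + c + 1)⁻¹ with hε
  have hpos : 0 < ε := by positivity
  have hmul : ∀ t, t ≠ a → t ≤ b + c + 1 → Equiv.swap (ε * a) 10 (ε * t) ≤ 1 := by
    intro t ht htb
    have h1 : ε * t ≤ 1 := by
      rw [hε, inv_mul_le_iff₀ (by positivity), mul_one]
      exact htb
    rw [Equiv.swap_apply_of_ne_of_ne]
    · exact h1
    · exact fun h => ht (mul_left_cancel₀ hpos.ne' h)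
    · intro h
      rw [h] at h1
      norm_num at h1
  refine ⟨fun t => Equiv.swap (ε * a) 10 (ε * t), ⟨?_, ?_⟩, ?_, ?_, ?_⟩
  · exact (Equiv.swap (ε * a) 10).bijective.comp (mulLeft_bijective₀ ε hpos.ne')
  · show Equiv.swap (ε * a) 10 (ε * 0) = 0
    rw [mul_zero, Equiv.swap_apply_of_ne_of_ne]
    · exact (mul_pos hpos (pos_iff_ne_zero.2 ha)).ne
    · norm_num
  · exact Equiv.swap_apply_left _ _
  · exact hmul b hb (by rw [add_assoc]; exact le_self_add)
  · refine hmul c hc ?_
    calc c ≤ b + c := le_add_self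
      _ ≤ b + c + 1 := le_self_add

/-- The main step: if every bijection fixing `0` preserves the class and only amenable functions do,
then all amenable functions do. -/
theorem eq_Am {A : Set (ℝ≥0 → ℝ≥0)} (hA : A ⊆ Am) (hB : Bij ⊆ A) {X : MetricClass.{u}}
    (hX : P X = A) : A = Am := by
  refine hA.antisymm ?_
  have hBX : Bij ⊆ P X := hX ▸ hB
  -- all members of the class are discrete
  have key : ∀ (Y : Type u) (ρ : Y → Y → ℝ≥0), X.Mem Y ρ → ∀ x y z : Y, x ≠ y → x ≠ z →
      ρ x y = ρ x z := by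
    intro Y ρ hm x y z hxy hxz
    by_contra hne
    have hρ := (X.isMetric Y ρ hm).2
    have h0 : ρ x y ≠ 0 := fun h => hxy ((hρ.eq_zero_iff x y).1 h)
    have h0' : ρ x z ≠ 0 := fun h => hxz ((hρ.eq_zero_iff x z).1 h)
    by_cases hc : ρ y z = ρ x y
    · obtain ⟨f, hf, h1, h2, h3⟩ := exists_bij (a := ρ x z) (b := ρ x y) (c := ρ y z) h0' hne
        (by rw [hc]; exact hne)
      have h4 := (X.isMetric Y _ (hBX hf Y ρ hm)).2.triangle x y z
      rw [h1] at h4
      have h5 : (10 : ℝ≥0) ≤ 1 + 1 := h4.trans (add_le_add h2 h3)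
      norm_num at h5
    · obtain ⟨f, hf, h1, h2, h3⟩ := exists_bij (a := ρ x y) (b := ρ x z) (c := ρ y z) h0
        (Ne.symm hne) hc
      have h4 := (X.isMetric Y _ (hBX hf Y ρ hm)).2.triangle x z y
      rw [h1, hρ.symm z y] at h4
      have h5 : (10 : ℝ≥0) ≤ 1 + 1 := h4.trans (add_le_add h2 h3)
      norm_num at h5
  intro f hf
  rw [← hX]
  by_cases hsub : ∀ (Y : Type u) (ρ : Y → Y → ℝ≥0), X.Mem Y ρ → Subsingleton Y
  · -- only one-point spaces: then the zero function preserves the class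
    exfalso
    have h1 : (fun _ : ℝ≥0 => (0 : ℝ≥0)) ∈ P X := by
      intro Y ρ hm
      have := hsub Y ρ hm
      have h2 : (fun x y : Y => (0 : ℝ≥0)) = ρ := by
        funext x y
        exact (((X.isMetric Y ρ hm).2.eq_zero_iff x y).2 (Subsingleton.elim x y)).symm
      show X.Mem Y fun x y => 0
      rw [h2]
      exact hm
    rw [hX] at h1
    exact one_ne_zero ((hA h1 1).1 rfl)
  · intro Y ρ hm
    have hρ := (X.isMetric Y ρ hm).2
    by_cases hY : Subsingleton Y
    · have h2 : (fun x y : Y => f (ρ x y)) = ρ := by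
        funext x y
        rw [(hρ.eq_zero_iff x y).2 (Subsingleton.elim x y)]
        exact (hf 0).2 rfl
      rw [h2]
      exact hm
    · rw [not_subsingleton_iff_nontrivial] at hY
      obtain ⟨a, b, hab⟩ := exists_pair_ne Y
      have hk : ρ a b ≠ 0 := fun h => hab ((hρ.eq_zero_iff a b).1 h)
      have hfk : f (ρ a b) ≠ 0 := fun h => hk ((hf _).1 h)
      have hall : ∀ x y : Y, x ≠ y → ρ x y = ρ a b := by
        intro x y hxy
        by_cases hxa : x = a
        · subst hxa
          exact key Y ρ hm x y b hxy hab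
        · rw [key Y ρ hm x y a hxy hxa, hρ.symm x a]
          exact key Y ρ hm a x b (Ne.symm hxa) hab
      have hg : (fun t => Equiv.swap (ρ a b) (f (ρ a b)) t) ∈ Bij :=
        ⟨(Equiv.swap _ _).bijective, Equiv.swap_apply_of_ne_of_ne (Ne.symm hk) (Ne.symm hfk)⟩
      have h3 := hBX hg Y ρ hm
      have h4 : (fun x y => f (ρ x y)) = fun x y => Equiv.swap (ρ a b) (f (ρ a b)) (ρ x y) := by
        funext x y
        by_cases hxy : x = y
        · rw [(hρ.eq_zero_iff x y).2 hxy, (hf 0).2 rfl]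
          exact hg.2.symm
        · rw [hall x y hxy, Equiv.swap_apply_left]
      rw [h4]
      exact h3

/-- (1) A submonoid of the monoid of amenable functions that contains all bijections of `[0, ∞)`
fixing `0` and is the monoid of preservers of a class of metric spaces is the monoid of all amenable
functions. (2) There is a submonoid of the monoid of amenable functions (namely that of these
bijections) that is not the monoid of preservers of any class of metric spaces. -/
theorem result :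
    (∀ A : Set (ℝ≥0 → ℝ≥0), IsSubmonoid A → A ⊆ Am → Bij ⊆ A →
      (∃ X : MetricClass.{u}, P X = A) → A = Am) ∧
    IsSubmonoid Bij ∧ Bij ⊆ Am ∧ ∀ X : MetricClass.{u}, P X ≠ Bij := by
  refine ⟨fun A _ hA hB ⟨X, hX⟩ => eq_Am hA hB hX, isSubmonoid_Bij, Bij_subset_Am, fun X hX => ?_⟩
  exact Bij_ne_Am (eq_Am Bij_subset_Am subset_rfl hX)

end Pool.Agent.Results.MP_6117a1_gt.NotRealisable
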